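import Mathlib
import Pool.Agent.Dirac80.Defs
import Pool.Agent.Dirac86.Gen.Final

/-!
# An inequality for ordinary lines at every point of the plane

For a finite set `S` of points of the plane, not all on a line, let `o(S)` be the number of lines
containing exactly two points of `S`.  For a point `p` of the plane let `o_p(S)` be the number of
those lines through `p`, and let `σ_p(S) = ∑ |L ∩ S|`, the sum being over the lines `L` not
through `p` which contain an even number `≥ 4` of points of `S`.  Then

`|S ∖ {p}| + 2 o_p(S) ≤ 2 o(S) + σ_p(S) + c_p(S)`,

where `c_p(S)` is the number of lines through `p` containing an odd number of points of `S ∖ {p}`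
if `|S ∖ {p}|` is odd, and, if `|S ∖ {p}|` is even, twice the minimum of the number of lines
through `p` containing exactly one point of `S ∖ {p}` and of the number of lines through `p`
containing an even number `≥ 2` of points of `S ∖ {p}`.
-/

set_option autoImplicit false

namespace Pool.Agent.Results.MP_8d3143_co.EveryPoint

open Pool.Agent.Dirac80 Pool.Agent.Dirac86.Gen

open Classical in
/-- The inequality for a point `p` of the plane, in `S` or not. -/
theorem result :
    ∀ S : Finset (EuclideanSpace ℝ (Fin 2)),
      ¬ Collinear ℝ (S : Set (EuclideanSpace ℝ (Fin 2))) →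
      ∀ p : EuclideanSpace ℝ (Fin 2),
      (S.erase p).card +
        2 * ((connectingLines S).filter (fun T : Finset (EuclideanSpace ℝ (Fin 2)) =>
          T.card = 2 ∧ p ∈ affineSpan ℝ (T : Set (EuclideanSpace ℝ (Fin 2))))).card ≤
      2 * {T : Finset (EuclideanSpace ℝ (Fin 2)) |
          T ⊆ S ∧ T.card = 2 ∧
            ∀ r ∈ S, r ∈ affineSpan ℝ (T : Set (EuclideanSpace ℝ (Fin 2))) → r ∈ T}.ncard +
      ∑ T ∈ (connectingLines S).filter (fun T : Finset (EuclideanSpace ℝ (Fin 2)) =>
          4 ≤ T.card ∧ Even T.card ∧
            p ∉ affineSpan ℝ (T : Set (EuclideanSpace ℝ (Fin 2)))), T.card +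
      (if Even (S.erase p).card then
        2 * min ((pencil S p).filter (fun R => R.card = 1)).card
          ((pencil S p).filter (fun R => Even R.card)).card
        else ((pencil S p).filter (fun R => Odd R.card)).card) :=
  fun S hS p => point_ineq S p hS

end Pool.Agent.Results.MP_8d3143_co.EveryPoint
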