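import Mathlib
import Pool.Agent.Dirac80.Defs
import Pool.Agent.Dirac86.Few.Asm

/-!
# Ordinary lines of sets with few even-rich lines

For a finite set `S` of `n` points of the plane, `n` even, not all on a line, let `o(S)` be the
number of lines containing exactly two points of `S`, and call a line *even-rich* if the number of
points of `S` on it is even and at least four.  Then, for every family of `k` lines,

`n ≤ 2 o(S) + ∑ |L ∩ S| + 2 k (k - 1)`,

the sum being over the even-rich lines `L` not in the family.  Neither the number nor the size of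
the lines with an odd number of points, nor the size of the `k` lines, is restricted.  If `S` has
exactly `k` even-rich lines, this is `n / 2 - k (k - 1) ≤ o(S)`.
-/

set_option autoImplicit false

namespace Pool.Agent.Results.MP_8d3143_co.FewEvenLines

open Pool.Agent.Dirac80

open Classical in
/-- Dirac's bound up to `k (k - 1)`, where `k` is the number of lines with an even number `≥ 4` of
points which are not counted. -/
theorem result :
    ∀ S : Finset (EuclideanSpace ℝ (Fin 2)), Even S.card →
      ¬ Collinear ℝ (S : Set (EuclideanSpace ℝ (Fin 2))) →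
      ∀ 𝓐 : Finset (Finset (EuclideanSpace ℝ (Fin 2))),
      S.card ≤
        2 * {T : Finset (EuclideanSpace ℝ (Fin 2)) |
          T ⊆ S ∧ T.card = 2 ∧
            ∀ r ∈ S, r ∈ affineSpan ℝ (T : Set (EuclideanSpace ℝ (Fin 2))) → r ∈ T}.ncard +
        ∑ T ∈ (connectingLines S).filter (fun T => 4 ≤ T.card ∧ Even T.card ∧ T ∉ 𝓐), T.card +
        2 * 𝓐.card * (𝓐.card - 1) := by
  intro S hn hS 𝓐
  obtain ⟨B, hB⟩ : ∃ B, B = 𝓐.filter
    (fun T => T ∈ (connectingLines S).filter (fun T => 4 ≤ T.card ∧ Even T.card)) := ⟨_, rfl⟩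
  have h1 := Pool.Agent.Dirac86.Few.few_all S hn hS B
    (fun T hT => by rw [hB] at hT; exact (Finset.mem_filter.mp hT).2)
  have h2 : B.card ≤ 𝓐.card := by rw [hB]; exact Finset.card_filter_le _ _
  have h3 : 2 * B.card * (B.card - 1) ≤ 2 * 𝓐.card * (𝓐.card - 1) :=
    Nat.mul_le_mul (Nat.mul_le_mul_left 2 h2) (Nat.sub_le_sub_right h2 1)
  have h4 : (connectingLines S).filter (fun T => 4 ≤ T.card ∧ Even T.card ∧ T ∉ B) =
      (connectingLines S).filter (fun T => 4 ≤ T.card ∧ Even T.card ∧ T ∉ 𝓐) := by
    refine Finset.filter_congr (fun T hT => ?_)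
    refine and_congr_right (fun h5 => and_congr_right (fun h6 => not_congr ?_))
    rw [hB, Finset.mem_filter]
    exact ⟨fun h => h.1, fun h => ⟨h, Finset.mem_filter.mpr ⟨hT, h5, h6⟩⟩⟩
  rw [h4] at h1
  exact h1.trans (Nat.add_le_add_left h3 _)

end Pool.Agent.Results.MP_8d3143_co.FewEvenLines
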