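import Mathlib
import Pool.Agent.Dirac80.Defs
import Pool.Agent.Dirac86.Kmp

/-!
# Ordinary lines: the Kelly-Moser bound with parity

For a finite set `S` of `n` points of the plane, not all on a line, let `o(S)` be the number of
lines containing exactly two points of `S`, and let `Z` be the number of points `p` of `S` for
which `n` plus the number of lines through `p` containing an even number `≥ 4` of points of `S`
is odd (these are the points lying on an even number of ordinary lines).  Then

`7 n ≤ 14 o(S) + Z`.
-/

set_option autoImplicit false

namespace Pool.Agent.Results.MP_8d3143_co.KellyMoserParity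

open Pool.Agent.Dirac80

open Classical in
/-- The Kelly-Moser bound with parity. -/
theorem result :
    ∀ S : Finset (EuclideanSpace ℝ (Fin 2)),
      ¬ Collinear ℝ (S : Set (EuclideanSpace ℝ (Fin 2))) →
      7 * S.card ≤
        14 * {T : Finset (EuclideanSpace ℝ (Fin 2)) |
          T ⊆ S ∧ T.card = 2 ∧
            ∀ r ∈ S, r ∈ affineSpan ℝ (T : Set (EuclideanSpace ℝ (Fin 2))) → r ∈ T}.ncard +
        (S.filter (fun p => Odd (S.card +
          ((connectingLines S).filter (fun T => 4 ≤ T.card ∧ Even T.card ∧ p ∈ T)).card))).card :=
  fun S hS => Pool.Agent.Dirac86.KM.kmp S hS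

end Pool.Agent.Results.MP_8d3143_co.KellyMoserParity
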