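import Mathlib
import Pool.Agent.Dirac80.Defs
import Pool.Agent.Dirac86.Tri.Asm3

/-!
# Ordinary lines of sets whose even-rich lines are long

For a finite set `S` of `n` points of the plane, `n` even, not all on a line, let `o(S)` be the
number of lines containing exactly two points of `S`, and call a line *even-rich* if the number of
points of `S` on it is even and at least four.  For a family of `k` lines let `m(x)` be the number
of lines of the family through the point `x`, let `q` be the sum of `(m(x) - 1)⁺` over the points
`x` of `S`, and let `e(x)` be the number of lines through `x` containing an even number of points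
of `S`.  If every line of the family contains at least `3 k` points of `S`, and at least
`4 k + 2 q` points of `S` in case `q` is positive, then

`n ≤ 2 o(S) + ∑ |L ∩ S| + ∑ (2 m(x) + 1 - e(x))⁺`,

the first sum being over the even-rich lines `L` not in the family, the second one over the points
`x` of `S` with `m(x) ≥ 4` and `e(x) ≥ 7`.  If the family consists of all even-rich lines, no four
of which meet in a point of `S`, this is Dirac's bound `n / 2 ≤ o(S)`.
-/

set_option autoImplicit false

namespace Pool.Agent.Results.MP_8d3143_co.LongEvenLines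

open Pool.Agent.Dirac80

open Classical in
/-- Dirac's bound for long even-rich lines, up to the points where four of them meet. -/
theorem result :
    ∀ S : Finset (EuclideanSpace ℝ (Fin 2)), Even S.card →
      ¬ Collinear ℝ (S : Set (EuclideanSpace ℝ (Fin 2))) →
      ∀ 𝓐 : Finset (Finset (EuclideanSpace ℝ (Fin 2))),
      (∀ T ∈ 𝓐, 3 * 𝓐.card ≤ T.card ∧
        (∑ x ∈ S, ((𝓐.filter (fun T => x ∈ T)).card - 1) = 0 ∨
          4 * 𝓐.card + 2 * ∑ x ∈ S, ((𝓐.filter (fun T => x ∈ T)).card - 1) ≤ T.card)) →
      S.card ≤
        2 * {T : Finset (EuclideanSpace ℝ (Fin 2)) |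
          T ⊆ S ∧ T.card = 2 ∧
            ∀ r ∈ S, r ∈ affineSpan ℝ (T : Set (EuclideanSpace ℝ (Fin 2))) → r ∈ T}.ncard +
        ∑ T ∈ (connectingLines S).filter (fun T => 4 ≤ T.card ∧ Even T.card ∧ T ∉ 𝓐), T.card +
        ∑ x ∈ S.filter (fun x => 4 ≤ (𝓐.filter (fun T => x ∈ T)).card ∧
            7 ≤ ((connectingLines S).filter (fun T => Even T.card ∧ x ∈ T)).card),
          (2 * (𝓐.filter (fun T => x ∈ T)).card + 1 -
            ((connectingLines S).filter (fun T => Even T.card ∧ x ∈ T)).card) :=
  fun S hn hS 𝓐 hlen => Pool.Agent.Dirac86.Tri.cross_all S hn hS 𝓐 hlen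

end Pool.Agent.Results.MP_8d3143_co.LongEvenLines
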